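import Mathlib

/-!
# Ranks of sums of squares divisible by a power of the squared norm: basics
-/

namespace Pool.Agent.Lib_helper26.SOS

open MvPolynomial

/-- The set `S_d(n)` of all `m` for which there is a Hermitian sum of squares
`∑_j |p_j(z)|^2` with `m` linearly independent holomorphic polynomials `p_j` on `ℂ^n`
which equals `‖z‖^{2d} A(z, z̄)` for a polynomial `A` in `z` and `z̄`. In `A` the variables
`Sum.inl k` stand for `z_k` and the variables `Sum.inr k` for the conjugate of `z_k`. -/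
def S (d n : ℕ) : Set ℕ :=
  {m | ∃ p : Fin m → MvPolynomial (Fin n) ℂ, LinearIndependent ℂ p ∧
    ∃ A : MvPolynomial (Fin n ⊕ Fin n) ℂ, ∀ z : Fin n → ℂ,
      ((∑ j, ‖eval z (p j)‖ ^ 2 : ℝ) : ℂ) =
        ((∑ k, ‖z k‖ ^ 2 : ℝ) : ℂ) ^ d *
          eval (Sum.elim z (fun k => (starRingEnd ℂ) (z k))) A}

/-- Polarization: a polynomial in `z, w` vanishing at all `(z, z̄)` is zero. -/
theorem polar {n : ℕ} (P : MvPolynomial (Fin n ⊕ Fin n) ℂ)
    (h : ∀ z : Fin n → ℂ, eval (Sum.elim z (fun k => (starRingEnd ℂ) (z k))) P = 0) :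
    P = 0 := by
  classical
  let f : Fin n ⊕ Fin n → MvPolynomial (Fin n ⊕ Fin n) ℂ :=
    Sum.elim (fun k => X (Sum.inl k) + C Complex.I * X (Sum.inr k))
      (fun k => X (Sum.inl k) - C Complex.I * X (Sum.inr k))
  have hev : ∀ x, eval x (bind₁ f P) = eval (fun i => eval x (f i)) P :=
    fun x => eval₂Hom_bind₁ _ _ _ _
  have key : bind₁ f P = 0 := by
    have hinf : ∀ _ : Fin n ⊕ Fin n, (Set.range (fun x : ℝ => (x : ℂ))).Infinite :=
      fun _ => Set.infinite_range_of_injective Complex.ofReal_injective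
    refine funext_set (fun _ => Set.range (fun x : ℝ => (x : ℂ))) hinf ?_
    intro x hx
    rw [map_zero]
    have hx' : ∀ i, ∃ r : ℝ, (r : ℂ) = x i := fun i => by
      have := hx i (Set.mem_univ i)
      simpa using this
    choose r hr using hx'
    rw [hev, ← h (fun k => x (Sum.inl k) + Complex.I * x (Sum.inr k))]
    congr 1
    congr 1
    funext i
    rcases i with k | k
    · simp [f]
    · simp [f, ← hr, sub_eq_add_neg]
  refine funext fun y => ?_
  have h2 := hev (Sum.elim (fun k => (y (Sum.inl k) + y (Sum.inr k)) / 2)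
    (fun k => (y (Sum.inl k) - y (Sum.inr k)) / (2 * Complex.I)))
  rw [key, map_zero] at h2
  rw [map_zero, h2]
  congr 1
  congr 1
  funext i
  have hI : Complex.I ≠ 0 := Complex.I_ne_zero
  rcases i with k | k
  · simp [f]
    field_simp
    ring
  · simp [f]
    field_simp
    ring

/-- The bilinear form `q = ∑ z_k w_k`. -/
noncomputable def q (n : ℕ) : MvPolynomial (Fin n ⊕ Fin n) ℂ :=
  ∑ k, X (Sum.inl k) * X (Sum.inr k)

/-- The conjugate polynomial. -/
noncomputable def cj {n : ℕ} (p : MvPolynomial (Fin n) ℂ) : MvPolynomial (Fin n) ℂ :=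
  map (starRingEnd ℂ) p

theorem eval_cj {n : ℕ} (p : MvPolynomial (Fin n) ℂ) (z : Fin n → ℂ) :
    eval (fun k => (starRingEnd ℂ) (z k)) (cj p) = (starRingEnd ℂ) (eval z p) := by
  unfold cj
  rw [eval_map, ← coe_eval₂Hom]
  have := MvPolynomial.map_eval₂Hom (RingHom.id ℂ) z (starRingEnd ℂ) p
  rw [RingHom.comp_id] at this
  exact this.symm

theorem eval_rename_inl {n : ℕ} (p : MvPolynomial (Fin n) ℂ) (z w : Fin n → ℂ) :
    eval (Sum.elim z w) (rename Sum.inl p) = eval z p := by
  rw [eval_rename]; rfl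

theorem eval_rename_inr {n : ℕ} (p : MvPolynomial (Fin n) ℂ) (z w : Fin n → ℂ) :
    eval (Sum.elim z w) (rename Sum.inr p) = eval w p := by
  rw [eval_rename]; rfl

theorem eval_q {n : ℕ} (z w : Fin n → ℂ) :
    eval (Sum.elim z w) (q n) = ∑ k, z k * w k := by
  simp [q, map_sum]

theorem polarized {n m d : ℕ} (p : Fin m → MvPolynomial (Fin n) ℂ)
    (A : MvPolynomial (Fin n ⊕ Fin n) ℂ) (h : ∀ z : Fin n → ℂ,
      ((∑ j, ‖eval z (p j)‖ ^ 2 : ℝ) : ℂ) =
        ((∑ k, ‖z k‖ ^ 2 : ℝ) : ℂ) ^ d *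
          eval (Sum.elim z (fun k => (starRingEnd ℂ) (z k))) A) :
    ∑ j, rename Sum.inl (p j) * rename Sum.inr (cj (p j)) = q n ^ d * A := by
  rw [← sub_eq_zero]
  apply polar
  intro z
  rw [map_sub, sub_eq_zero, map_mul, map_pow, map_sum, eval_q]
  simp_rw [map_mul, eval_rename_inl, eval_rename_inr, eval_cj, Complex.mul_conj,
    Complex.normSq_eq_norm_sq]
  rw [← Complex.ofReal_sum, ← Complex.ofReal_sum]
  exact h z

theorem of_polarized {n m d : ℕ} (p : Fin m → MvPolynomial (Fin n) ℂ)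
    (A : MvPolynomial (Fin n ⊕ Fin n) ℂ)
    (h : ∑ j, rename Sum.inl (p j) * rename Sum.inr (cj (p j)) = q n ^ d * A)
    (z : Fin n → ℂ) :
    ((∑ j, ‖eval z (p j)‖ ^ 2 : ℝ) : ℂ) =
        ((∑ k, ‖z k‖ ^ 2 : ℝ) : ℂ) ^ d *
          eval (Sum.elim z (fun k => (starRingEnd ℂ) (z k))) A := by
  have h2 := congrArg (eval (Sum.elim z (fun k => (starRingEnd ℂ) (z k)))) h
  rw [map_mul, map_pow, map_sum, eval_q] at h2
  simp_rw [map_mul, eval_rename_inl, eval_rename_inr, eval_cj, Complex.mul_conj,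
    Complex.normSq_eq_norm_sq] at h2
  rw [← Complex.ofReal_sum, ← Complex.ofReal_sum] at h2
  exact h2

/-- Iterated derivative in the `w` variables along a list. -/
noncomputable def der {n : ℕ} (L : List (Fin n)) (F : MvPolynomial (Fin n ⊕ Fin n) ℂ) :
    MvPolynomial (Fin n ⊕ Fin n) ℂ :=
  L.foldr (fun k f => pderiv (Sum.inr k) f) F

/-- The monomial in the `z` variables along a list. -/
noncomputable def mon {n : ℕ} (L : List (Fin n)) : MvPolynomial (Fin n) ℂ :=
  (L.map X).prod

theorem pderiv_inr_rename_inl {n : ℕ} (k : Fin n) (p : MvPolynomial (Fin n) ℂ) :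
    pderiv (Sum.inr k) (rename (Sum.inl : Fin n → Fin n ⊕ Fin n) p) = 0 := by
  classical
  apply pderiv_eq_zero_of_notMem_vars
  intro hk
  have := vars_rename (Sum.inl : Fin n → Fin n ⊕ Fin n) p hk
  simp at this

theorem pderiv_inr_rename_inr {n : ℕ} (k : Fin n) (p : MvPolynomial (Fin n) ℂ) :
    pderiv (Sum.inr k) (rename (Sum.inr : Fin n → Fin n ⊕ Fin n) p) =
      rename Sum.inr (pderiv k p) :=
  pderiv_rename Sum.inr_injective _ _

theorem pderiv_inr_q {n : ℕ} (k : Fin n) :
    pderiv (Sum.inr k) (q n) = X (Sum.inl k) := by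
  classical
  unfold q
  rw [map_sum]
  simp [pderiv_X, Pi.single_apply]

/-- The iterated derivatives of `∑ p_j(z) r_j(w)` have the same shape. -/
theorem der_sum {n m : ℕ} (p : Fin m → MvPolynomial (Fin n) ℂ)
    (r : Fin m → MvPolynomial (Fin n) ℂ) (L : List (Fin n)) :
    ∃ g : Fin m → MvPolynomial (Fin n) ℂ,
      der L (∑ j, rename Sum.inl (p j) * rename Sum.inr (r j)) =
        ∑ j, rename Sum.inl (p j) * rename Sum.inr (g j) := by
  induction L with
  | nil => exact ⟨r, rfl⟩
  | cons k L ih =>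
    obtain ⟨g, hg⟩ := ih
    refine ⟨fun j => pderiv k (g j), ?_⟩
    have : der (k :: L) (∑ j, rename Sum.inl (p j) * rename Sum.inr (r j)) =
      pderiv (Sum.inr k) (der L (∑ j, rename Sum.inl (p j) * rename Sum.inr (r j))) := rfl
    rw [this, hg, map_sum]
    refine Finset.sum_congr rfl fun j _ => ?_
    rw [pderiv_mul, pderiv_inr_rename_inl, pderiv_inr_rename_inr, zero_mul, zero_add]

/-- The iterated derivatives of `q^D B` to leading order in `q`. -/
theorem der_q {n D : ℕ} (B : MvPolynomial (Fin n ⊕ Fin n) ℂ) (L : List (Fin n))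
    (hL : L.length ≤ D) :
    ∃ H : MvPolynomial (Fin n ⊕ Fin n) ℂ,
      der L (q n ^ D * B) =
        C (D.descFactorial L.length : ℂ) * rename Sum.inl (mon L) *
          q n ^ (D - L.length) * B + q n ^ (D - L.length + 1) * H := by
  induction L with
  | nil => exact ⟨0, by simp [der, mon]⟩
  | cons k L ih =>
    rw [List.length_cons] at hL
    obtain ⟨H, hH⟩ := ih (by omega)
    obtain ⟨e, he⟩ : ∃ e, D = L.length + 1 + e := ⟨D - (L.length + 1), by omega⟩
    have h1 : D - L.length = e + 1 := by omega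
    have h2 : D - (k :: L).length = e := by rw [List.length_cons]; omega
    rw [h1] at hH
    rw [h2]
    have hd : D.descFactorial (k :: L).length = (e + 1) * D.descFactorial L.length := by
      rw [List.length_cons, Nat.descFactorial_succ, h1]
    have hm : mon (k :: L) = X k * mon L := by simp [mon]
    refine ⟨C (D.descFactorial L.length : ℂ) * rename Sum.inl (mon L) *
        pderiv (Sum.inr k) B + C ((e : ℂ) + 2) * X (Sum.inl k) * H +
        q n * pderiv (Sum.inr k) H, ?_⟩
    have h3 : der (k :: L) (q n ^ D * B) = pderiv (Sum.inr k) (der L (q n ^ D * B)) := rfl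
    rw [h3, hH, hd, hm]
    rw [map_add, pderiv_mul, pderiv_mul, pderiv_mul, pderiv_mul, pderiv_pow,
      pderiv_pow, pderiv_inr_q, pderiv_C, pderiv_inr_rename_inl, map_mul (rename Sum.inl),
      rename_X]
    simp only [Nat.cast_mul, Nat.cast_add, Nat.cast_one, map_mul, map_add, map_one, map_natCast,
      Nat.add_sub_cancel]
    have h4 : (C (2 : ℂ) : MvPolynomial (Fin n ⊕ Fin n) ℂ) = 2 := by
      rw [map_ofNat]
    rw [h4]
    ring

end Pool.Agent.Lib_helper26.SOS
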