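import Pool.Agent.Lib_helper26.SOS.Basic

/-!
# The lower bound for the rank
-/

namespace Pool.Agent.Lib_helper26.SOS

open MvPolynomial

theorem q_irreducible {n : ℕ} (hn : 2 ≤ n) : Irreducible (q n) := by
  classical
  have h := irreducible_sumSMulXSMulY (R := ℂ) (n := Fin n)
    (Finsupp.equivFunOnFinite.symm (fun _ => 1)) (by
      refine ⟨⟨0, by omega⟩, by simp, ⟨1, by omega⟩, by simp, ?_⟩
      simp [Fin.ext_iff]) (by
      intro r hr
      have := hr ⟨0, by omega⟩
      simpa using this)
  convert h using 1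
  unfold q sumSMulXSMulY
  rw [Finsupp.linearCombination_apply, Finsupp.sum_fintype]
  · simp
  · simp

theorem q_prime {n : ℕ} (hn : 2 ≤ n) : Prime (q n) :=
  UniqueFactorizationMonoid.irreducible_iff_prime.1 (q_irreducible hn)

theorem q_ne_zero {n : ℕ} (hn : 1 ≤ n) : q n ≠ 0 := by
  intro h
  have := congrArg (eval (Sum.elim (fun k : Fin n => (1 : ℂ)) (fun _ => 1))) h
  rw [eval_q] at this
  simp at this
  omega

/-- A point of the hypersurface `q = 0` where `B` and a coordinate do not vanish. -/
theorem exists_point {n : ℕ} (hn : 2 ≤ n) (B : MvPolynomial (Fin n ⊕ Fin n) ℂ)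
    (hB : ¬ q n ∣ B) (i : Fin n) :
    ∃ z w : Fin n → ℂ, ∑ k, z k * w k = 0 ∧ eval (Sum.elim z w) B ≠ 0 ∧ w i ≠ 0 := by
  classical
  have hp := q_prime hn
  have hne := q_ne_zero (n := n) (by omega)
  have : (Ideal.span {q n}).IsPrime := (Ideal.span_singleton_prime hne).2 hp
  have hX : ¬ q n ∣ X (Sum.inr i) := by
    intro hdvd
    obtain ⟨j, hj⟩ : ∃ j : Fin n, j ≠ i := by
      have : Nontrivial (Fin n) := Fin.nontrivial_iff_two_le.2 hn
      exact exists_ne i
    obtain ⟨t, ht⟩ := hdvd
    have := congrArg (eval (Sum.elim (0 : Fin n → ℂ) (fun _ => 1))) ht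
    rw [map_mul, eval_q] at this
    simp at this
  have hmem : B * X (Sum.inr i) ∉ vanishingIdeal ℂ (zeroLocus ℂ (Ideal.span {q n})) := by
    rw [MvPolynomial.IsPrime.vanishingIdeal_zeroLocus, Ideal.mem_span_singleton]
    intro h
    rcases hp.dvd_or_dvd h with h | h
    · exact hB h
    · exact hX h
  rw [mem_vanishingIdeal_iff] at hmem
  push Not at hmem
  obtain ⟨x, hx, hx2⟩ := hmem
  have hx3 : aeval x (q n) = 0 := hx _ (Ideal.subset_span rfl)
  have hx4 : Sum.elim (fun k => x (Sum.inl k)) (fun k => x (Sum.inr k)) = x := by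
    funext i; rcases i with i | i <;> rfl
  have hae : ∀ P : MvPolynomial (Fin n ⊕ Fin n) ℂ, aeval x P = eval x P := fun P => by
    rw [← coe_aeval_eq_eval]; rfl
  refine ⟨fun k => x (Sum.inl k), fun k => x (Sum.inr k), ?_, ?_, ?_⟩
  · rw [← eval_q, hx4, ← hae]
    exact hx3
  · rw [hx4]
    intro h0
    apply hx2
    rw [map_mul, hae, h0, zero_mul]
  · intro h0
    apply hx2
    rw [map_mul, aeval_X]
    exact mul_eq_zero_of_right _ h0

/-- Specialization of the `w` variables. -/
noncomputable def sp {n : ℕ} (w : Fin n → ℂ) :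
    MvPolynomial (Fin n ⊕ Fin n) ℂ →ₐ[ℂ] MvPolynomial (Fin n) ℂ :=
  aeval (Sum.elim X (fun k => C (w k)))

theorem sp_inl {n : ℕ} (w : Fin n → ℂ) (p : MvPolynomial (Fin n) ℂ) :
    sp w (rename Sum.inl p) = p := by
  unfold sp
  rw [aeval_rename]
  have : (Sum.elim X fun k => C (w k)) ∘ Sum.inl = (X : Fin n → MvPolynomial (Fin n) ℂ) := rfl
  rw [this, aeval_X_left_apply]

theorem sp_inr {n : ℕ} (w : Fin n → ℂ) (p : MvPolynomial (Fin n) ℂ) :
    sp w (rename Sum.inr p) = C (eval w p) := by
  unfold sp
  rw [aeval_rename]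
  have : (Sum.elim X fun k => C (w k)) ∘ Sum.inr = fun k => (C (w k) : MvPolynomial (Fin n) ℂ) := rfl
  rw [this]
  induction p using MvPolynomial.induction_on with
  | C a => simp
  | add p q hp hq => rw [map_add, map_add, hp, hq, map_add]
  | mul_X p i hp => rw [map_mul, map_mul, hp, map_mul]; simp

theorem eval_sp {n : ℕ} (z w : Fin n → ℂ) (P : MvPolynomial (Fin n ⊕ Fin n) ℂ) :
    eval z (sp w P) = eval (Sum.elim z w) P := by
  unfold sp
  induction P using MvPolynomial.induction_on with
  | C a => simp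
  | add p q hp hq => rw [map_add, map_add, hp, hq, map_add]
  | mul_X p i hp =>
    rw [map_mul, map_mul, hp, map_mul]
    rcases i with i | i <;> simp

theorem mon_eq {n : ℕ} (L : List (Fin n)) :
    mon L = monomial (Multiset.toFinsupp (L : Multiset (Fin n))) 1 := by
  induction L with
  | nil => simp [mon]
  | cons k L ih =>
    have : mon (k :: L) = X k * mon L := by simp [mon]
    rw [this, ih, ← Multiset.cons_coe, ← Multiset.singleton_add, map_add,
      Multiset.toFinsupp_singleton, X, monomial_mul, one_mul]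

/-- The nonzero elements of an element of the symmetric power. -/
noncomputable def nz {n D : ℕ} (s : Sym (Fin (n + 1)) D) : List (Fin (n + 1)) :=
  ((s : Multiset (Fin (n + 1))).filter (fun x => x ≠ 0)).toList

theorem nz_length {n D : ℕ} (s : Sym (Fin (n + 1)) D) : (nz s).length ≤ D := by
  unfold nz
  rw [Multiset.length_toList]
  exact (Multiset.card_le_card (Multiset.filter_le _ _)).trans s.2.le

theorem nz_ne {n D : ℕ} (s : Sym (Fin (n + 1)) D) : ∀ x ∈ nz s, x ≠ 0 := by
  intro x hx
  unfold nz at hx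
  rw [Multiset.mem_toList, Multiset.mem_filter] at hx
  exact hx.2

theorem nz_inj {n D : ℕ} {s t : Sym (Fin (n + 1)) D}
    (h : (nz s : Multiset (Fin (n + 1))) = nz t) : s = t := by
  unfold nz at h
  rw [Multiset.coe_toList, Multiset.coe_toList] at h
  have hs := Multiset.filter_add_not (fun x => x ≠ 0) (s : Multiset (Fin (n + 1)))
  have ht := Multiset.filter_add_not (fun x => x ≠ 0) (t : Multiset (Fin (n + 1)))
  have h0 : ∀ u : Sym (Fin (n + 1)) D, Multiset.filter (fun x => ¬ x ≠ 0)
      (u : Multiset (Fin (n + 1))) = Multiset.replicate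
      (D - Multiset.card (Multiset.filter (fun x => x ≠ 0) (u : Multiset (Fin (n + 1))))) 0 := by
    intro u
    rw [Multiset.eq_replicate]
    constructor
    · have := congrArg Multiset.card
        (Multiset.filter_add_not (fun x => x ≠ 0) (u : Multiset (Fin (n + 1))))
      rw [Multiset.card_add] at this
      have h2 : Multiset.card (u : Multiset (Fin (n + 1))) = D := u.2
      omega
    · intro b hb
      rw [Multiset.mem_filter] at hb
      simpa using hb.2
  apply Sym.coe_injective
  rw [← hs, ← ht, h0 s, h0 t, h]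

theorem sp_q {n : ℕ} (w : Fin n → ℂ) : sp w (q n) = ∑ k, X k * C (w k) := by
  unfold sp q
  rw [map_sum]
  refine Finset.sum_congr rfl fun k _ => ?_
  rw [map_mul, aeval_X, aeval_X]
  rfl

theorem card_le_of_span {M ι : Type*} [AddCommGroup M] [Module ℂ M] [Fintype ι] {m : ℕ}
    (p : Fin m → M) (v : ι → M) (hv : LinearIndependent ℂ v)
    (h : ∀ i, v i ∈ Submodule.span ℂ (Set.range p)) : Fintype.card ι ≤ m := by
  have : Module.Finite ℂ (Submodule.span ℂ (Set.range p)) :=
    Module.Finite.span_of_finite ℂ (Set.finite_range p)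
  let v' : ι → Submodule.span ℂ (Set.range p) := fun i => ⟨v i, h i⟩
  have hv' : LinearIndependent ℂ v' :=
    LinearIndependent.of_comp (Submodule.subtype _) hv
  have h1 := hv'.fintype_card_le_finrank
  have h2 := finrank_range_le_card (R := ℂ) p
  rw [Fintype.card_fin] at h2
  exact h1.trans h2

/-- The linear independence at the heart of the lower bound. -/
theorem linInd {n D : ℕ} (z w : Fin (n + 1) → ℂ) (hzw : ∑ k, z k * w k = 0)
    (hw0 : w 0 ≠ 0) (b : MvPolynomial (Fin (n + 1)) ℂ) (hb : eval z b ≠ 0)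
    (v : Sym (Fin (n + 1)) D → MvPolynomial (Fin (n + 1)) ℂ)
    (hv : ∀ s, ∃ H, v s = C (D.descFactorial (nz s).length : ℂ) * mon (nz s) *
      (∑ k, X k * C (w k)) ^ (D - (nz s).length) * b +
      (∑ k, X k * C (w k)) ^ (D - (nz s).length + 1) * H) :
    LinearIndependent ℂ v := by
  classical
  set l : MvPolynomial (Fin (n + 1)) ℂ := ∑ k, X k * C (w k) with hl
  -- the substitution killing `l`
  let σ : MvPolynomial (Fin (n + 1)) ℂ →ₐ[ℂ] MvPolynomial (Fin (n + 1)) ℂ :=
    aeval (fun k => if k = 0 then C (-(w 0)⁻¹) * ∑ j : Fin n, X j.succ * C (w j.succ) else X k)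
  have hσl : σ l = 0 := by
    rw [hl, map_sum, Fin.sum_univ_succ]
    simp only [map_mul, σ, aeval_X, if_true, aeval_C, Fin.succ_ne_zero, if_false]
    simp only [algebraMap_eq]
    have h1 : (C (-(w 0)⁻¹) : MvPolynomial (Fin (n + 1)) ℂ) * C (w 0) = -1 := by
      rw [← C_mul, neg_mul, inv_mul_cancel₀ hw0, C_neg, C_1]
    linear_combination (∑ j : Fin n, X j.succ * C (w j.succ)) * h1
  have hσb : σ b ≠ 0 := by
    intro h0
    apply hb
    have h1 : eval z (σ b) = eval z b := by
      have h2 : (eval z : MvPolynomial (Fin (n + 1)) ℂ →+* ℂ).comp (σ : _ →+* _) = eval z := by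
        refine MvPolynomial.ringHom_ext (fun a => by simp [σ]) (fun k => ?_)
        by_cases hk : k = 0
        · subst hk
          simp only [RingHom.comp_apply, σ, RingHom.coe_coe, aeval_X, if_true, map_mul, eval_C,
            map_sum, eval_X]
          rw [Fin.sum_univ_succ] at hzw
          field_simp
          linear_combination -hzw
        · simp [σ, hk]
      exact congrArg (fun f => f b) h2
    rw [← h1, h0, map_zero]
  have hσm : ∀ s : Sym (Fin (n + 1)) D, σ (mon (nz s)) = mon (nz s) := by
    intro s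
    have hs := nz_ne s
    generalize nz s = L at hs
    induction L with
    | nil => simp [mon]
    | cons k L ih =>
      have h3 : mon (k :: L) = X k * mon L := by simp [mon]
      rw [h3, map_mul, ih (fun x hx => hs x (List.mem_cons_of_mem _ hx))]
      have hk : k ≠ 0 := hs k (List.mem_cons_self ..)
      simp [σ, hk]
  have hl0 : l ≠ 0 := by
    intro h0
    have h1 := congrArg (eval (Pi.single (0 : Fin (n + 1)) (1 : ℂ))) h0
    rw [hl, map_sum, map_zero, Finset.sum_eq_single 0] at h1
    · simp at h1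
      exact hw0 h1
    · intro k _ hk
      simp [hk]
    · simp
  rw [Fintype.linearIndependent_iff]
  intro c hc
  by_contra hne
  push Not at hne
  obtain ⟨s1, hs1⟩ := hne
  obtain ⟨s0, hs0, hmax⟩ := Finset.exists_max_image
    (Finset.univ.filter (fun s => c s ≠ 0)) (fun s => (nz s).length) ⟨s1, by simpa using hs1⟩
  rw [Finset.mem_filter] at hs0
  set j := (nz s0).length with hj
  have hjD : j ≤ D := nz_length s0
  have hform : ∀ s, ∃ H, c s • v s = l ^ (D - j) * (b *
      (if (nz s).length = j then C (c s * (D.descFactorial j : ℂ)) * mon (nz s) else 0) +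
      l * H) := by
    intro s
    by_cases hcs : c s = 0
    · exact ⟨0, by simp [hcs]⟩
    obtain ⟨H, hH⟩ := hv s
    have hle : (nz s).length ≤ j := hmax s (by simpa using hcs)
    have hlD := nz_length s
    by_cases heq : (nz s).length = j
    · refine ⟨C (c s) * H, ?_⟩
      rw [hH, if_pos heq, heq, smul_eq_C_mul, C_mul]
      ring
    · obtain ⟨e, he⟩ : ∃ e, D - (nz s).length = (D - j) + 1 + e := ⟨j - (nz s).length - 1, by omega⟩
      refine ⟨C (c s) * (C (D.descFactorial (nz s).length : ℂ) * mon (nz s) * l ^ e * b +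
        l ^ (e + 1) * H), ?_⟩
      rw [hH, if_neg heq, he, smul_eq_C_mul]
      ring
  choose H hH using hform
  have hsum : l ^ (D - j) * (b * (∑ s, (if (nz s).length = j then
      C (c s * (D.descFactorial j : ℂ)) * mon (nz s) else 0)) + l * ∑ s, H s) = 0 := by
    have h3 : l ^ (D - j) * (b * (∑ s, (if (nz s).length = j then
      C (c s * (D.descFactorial j : ℂ)) * mon (nz s) else 0)) + l * ∑ s, H s) =
      ∑ s, c s • v s := by
      rw [Finset.mul_sum, Finset.mul_sum, ← Finset.sum_add_distrib, Finset.mul_sum]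
      exact Finset.sum_congr rfl fun s _ => (hH s).symm
    rw [h3, hc]
  have h4 := (mul_eq_zero.1 hsum).resolve_left (pow_ne_zero _ hl0)
  have h5 := congrArg σ h4
  rw [map_add, map_mul, map_mul, hσl, zero_mul, add_zero, map_zero, map_sum] at h5
  have h6 := (mul_eq_zero.1 h5).resolve_left hσb
  have h7 : ∑ s, (if (nz s).length = j then
      C (c s * (D.descFactorial j : ℂ)) * mon (nz s) else 0) =
      (0 : MvPolynomial (Fin (n + 1)) ℂ) := by
    refine Eq.trans ?_ h6
    refine Finset.sum_congr rfl fun s _ => ?_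
    by_cases heq : (nz s).length = j
    · simp only [if_pos heq]
      rw [map_mul σ, hσm]
      simp [σ]
    · simp only [if_neg heq]
      rw [map_zero]
  have h8 := congrArg (coeff (Multiset.toFinsupp (nz s0 : Multiset (Fin (n + 1))))) h7
  rw [coeff_sum, coeff_zero, Finset.sum_eq_single s0] at h8
  · rw [if_pos rfl, coeff_C_mul, mon_eq, coeff_monomial, if_pos rfl, mul_one] at h8
    rcases mul_eq_zero.1 h8 with h9 | h9
    · exact hs0.2 h9
    · have : D.descFactorial j ≠ 0 := by
        intro h10
        rw [Nat.descFactorial_eq_zero_iff_lt] at h10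
        omega
      exact this (by exact_mod_cast h9)
  · intro s _ hs
    by_cases heq : (nz s).length = j
    · rw [if_pos heq, coeff_C_mul, mon_eq, coeff_monomial, if_neg, mul_zero]
      intro h9
      exact hs (nz_inj (Multiset.toFinsupp.injective h9))
    · rw [if_neg heq, coeff_zero]
  · intro h; exact absurd (Finset.mem_univ _) h

/-- The lower bound for bilinear sums. -/
theorem lower_bilinear {n D m : ℕ} (hn : 1 ≤ n) (p r : Fin m → MvPolynomial (Fin (n + 1)) ℂ)
    (B : MvPolynomial (Fin (n + 1) ⊕ Fin (n + 1)) ℂ) (hB : ¬ q (n + 1) ∣ B)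
    (h : ∑ j, rename Sum.inl (p j) * rename Sum.inr (r j) = q (n + 1) ^ D * B) :
    (n + D).choose D ≤ m := by
  classical
  obtain ⟨z, w, hzw, hBz, hw0⟩ := exists_point (by omega) B hB 0
  have hli := linInd (D := D) z w hzw hw0 (sp w B) (by rwa [eval_sp])
    (fun s => sp w (der (nz s) (q (n + 1) ^ D * B))) (by
      intro s
      obtain ⟨H, hH⟩ := der_q B (nz s) (nz_length s)
      refine ⟨sp w H, ?_⟩
      rw [hH]
      simp only [map_add, map_mul, map_pow, sp_q, sp_inl]
      simp [sp])
  have := card_le_of_span p _ hli (by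
    intro s
    obtain ⟨g, hg⟩ := der_sum p r (nz s)
    rw [← h, hg, map_sum]
    refine Submodule.sum_mem _ fun j _ => ?_
    rw [map_mul, sp_inl, sp_inr, mul_comm, ← smul_eq_C_mul]
    exact Submodule.smul_mem _ _ (Submodule.subset_span ⟨j, rfl⟩))
  rwa [Sym.card_sym_eq_choose, Fintype.card_fin, Nat.add_right_comm,
    Nat.add_sub_cancel] at this

end Pool.Agent.Lib_helper26.SOS
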