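import Pool.Agent.Lib_helper26.SOS.Lower

/-!
# Constructions: membership in `S_d(n)`
-/

namespace Pool.Agent.Lib_helper26.SOS

open MvPolynomial

theorem mem_S_of {d n : ℕ} {ι : Type*} [Fintype ι] (p : ι → MvPolynomial (Fin n) ℂ)
    (hp : LinearIndependent ℂ p) (A : MvPolynomial (Fin n ⊕ Fin n) ℂ)
    (h : ∀ z : Fin n → ℂ, ((∑ j, ‖eval z (p j)‖ ^ 2 : ℝ) : ℂ) =
        ((∑ k, ‖z k‖ ^ 2 : ℝ) : ℂ) ^ d *
          eval (Sum.elim z (fun k => (starRingEnd ℂ) (z k))) A) :
    Fintype.card ι ∈ S d n := by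
  refine ⟨p ∘ (Fintype.equivFin ι).symm, hp.comp _ (Equiv.injective _), A, fun z => ?_⟩
  rw [← h z]
  congr 1
  exact Equiv.sum_comp (Fintype.equivFin ι).symm (fun j => ‖eval z (p j)‖ ^ 2)

theorem zero_mem_S (d n : ℕ) : 0 ∈ S d n :=
  ⟨fun i => i.elim0, linearIndependent_empty_type, 0, fun z => by simp⟩

theorem eval_q_conj {n : ℕ} (z : Fin n → ℂ) :
    eval (Sum.elim z (fun k => (starRingEnd ℂ) (z k))) (q n) =
      ((∑ k, ‖z k‖ ^ 2 : ℝ) : ℂ) := by
  rw [eval_q]
  simp_rw [Complex.mul_conj, Complex.normSq_eq_norm_sq]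
  rw [← Complex.ofReal_sum]

theorem prodX_eq {n : ℕ} (s : Multiset (Fin n)) :
    (s.map (X : Fin n → MvPolynomial (Fin n) ℂ)).prod = monomial (Multiset.toFinsupp s) 1 := by
  induction s using Multiset.induction_on with
  | empty => simp
  | cons k s ih =>
    rw [Multiset.map_cons, Multiset.prod_cons, ih, ← Multiset.singleton_add, map_add,
      Multiset.toFinsupp_singleton, X, monomial_mul, one_mul]

theorem linearIndependent_monomials {n : ℕ} {ι : Type*} [Fintype ι] (e : ι → (Fin n →₀ ℕ))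
    (he : Function.Injective e) (a : ι → ℂ) (ha : ∀ i, a i ≠ 0) :
    LinearIndependent ℂ (fun i => (C (a i) * monomial (e i) 1 : MvPolynomial (Fin n) ℂ)) := by
  classical
  rw [Fintype.linearIndependent_iff]
  intro c hc i
  have h1 := congrArg (coeff (e i)) hc
  rw [coeff_sum, coeff_zero, Finset.sum_eq_single i] at h1
  · rw [coeff_smul, coeff_C_mul, coeff_monomial, if_pos rfl, mul_one, smul_eq_mul] at h1
    exact (mul_eq_zero.1 h1).resolve_right (ha i)
  · intro j _ hj
    rw [coeff_smul, coeff_C_mul, coeff_monomial, if_neg, mul_zero, smul_zero]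
    intro h2
    exact hj (he h2)
  · intro h; exact absurd (Finset.mem_univ _) h

/-- The powers of the squared norm have binomial rank. -/
theorem choose_mem_S {d n D : ℕ} (hn : 1 ≤ n) (hd : d ≤ D) :
    (n + D - 1).choose D ∈ S d n := by
  classical
  have hcard : Fintype.card (Sym (Fin n) D) = (n + D - 1).choose D := by
    rw [Sym.card_sym_eq_choose, Fintype.card_fin]
  rw [← hcard]
  have hpos : ∀ s : Sym (Fin n) D, 0 < (s : Multiset (Fin n)).countPerms := by
    intro s
    rw [Multiset.countPerms]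
    exact Nat.multinomial_pos _ _
  refine mem_S_of (fun s : Sym (Fin n) D =>
    C ((Real.sqrt ((s : Multiset (Fin n)).countPerms : ℝ) : ℝ) : ℂ) *
      monomial (Multiset.toFinsupp (s : Multiset (Fin n))) 1)
    (linearIndependent_monomials _ ?_ _ ?_) (q n ^ (D - d)) ?_
  · intro s t h
    exact Sym.coe_injective (Multiset.toFinsupp.injective h)
  · intro s h
    rw [Complex.ofReal_eq_zero, Real.sqrt_eq_zero'] at h
    have := hpos s
    have h2 : (0 : ℝ) < ((s : Multiset (Fin n)).countPerms : ℝ) := by exact_mod_cast this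
    linarith
  · intro z
    rw [map_pow, eval_q_conj, ← pow_add, Nat.add_sub_cancel' hd, ← Complex.ofReal_pow]
    congr 1
    rw [Finset.sum_pow, Finset.sym_univ]
    refine Finset.sum_congr rfl fun s _ => ?_
    rw [← prodX_eq, map_mul, norm_mul, mul_pow, eval_C, Complex.norm_real, Real.norm_eq_abs,
      sq_abs, Real.sq_sqrt (Nat.cast_nonneg _)]
    congr 1
    have key : ∀ t : Multiset (Fin n), ‖eval z (t.map X).prod‖ ^ 2 =
        (t.map (fun k => ‖z k‖ ^ 2)).prod := by
      intro t
      induction t using Multiset.induction_on with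
      | empty => simp
      | cons k t ih =>
        rw [Multiset.map_cons, Multiset.prod_cons, map_mul, norm_mul, mul_pow, ih]
        simp
    exact key _

/-- `S_d(n)` is closed under addition. -/
theorem add_mem_S {d n a b : ℕ} (ha : a ∈ S d (n + 1)) (hb : b ∈ S d (n + 1)) :
    a + b ∈ S d (n + 1) := by
  classical
  obtain ⟨p, hp, A, hA⟩ := ha
  obtain ⟨r, hr, B, hB⟩ := hb
  obtain ⟨N, hN⟩ : ∃ N, ∀ j, (p j).totalDegree ≤ N :=
    ⟨Finset.univ.sup (fun j => (p j).totalDegree), fun j =>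
      Finset.le_sup (f := fun j => (p j).totalDegree) (Finset.mem_univ j)⟩
  let x0 : MvPolynomial (Fin (n + 1)) ℂ := X 0 ^ (N + 1)
  have hx0 : x0 ≠ 0 := pow_ne_zero _ (X_ne_zero _)
  have hr' : LinearIndependent ℂ (fun j => x0 * r j) := by
    have := hr.map' (LinearMap.mulLeft ℂ x0) (by
      rw [LinearMap.ker_eq_bot]
      intro u v huv
      exact mul_left_cancel₀ hx0 huv)
    exact this
  have hdisj : Disjoint (Submodule.span ℂ (Set.range p))
      (Submodule.span ℂ (Set.range (fun j => x0 * r j))) := by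
    rw [Submodule.disjoint_def]
    intro u hu hu'
    have h1 : u ∈ restrictTotalDegree (Fin (n + 1)) ℂ N := by
      refine Submodule.span_le.2 ?_ hu
      rintro _ ⟨j, rfl⟩
      exact (mem_restrictTotalDegree _ _ _).2 (hN j)
    rw [mem_restrictTotalDegree] at h1
    have h2 : ∃ v, u = x0 * v := by
      refine Submodule.span_induction (p := fun u _ => ∃ v, u = x0 * v) ?_ ⟨0, by simp⟩
        ?_ ?_ hu'
      · rintro _ ⟨j, rfl⟩
        exact ⟨_, rfl⟩
      · rintro _ _ _ _ ⟨v, rfl⟩ ⟨v', rfl⟩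
        exact ⟨v + v', by ring⟩
      · rintro c _ _ ⟨v, rfl⟩
        exact ⟨c • v, by rw [mul_smul_comm]⟩
    obtain ⟨v, rfl⟩ := h2
    by_contra hne
    have hv : v ≠ 0 := fun h => hne (by rw [h, mul_zero])
    rw [totalDegree_mul_of_isDomain hx0 hv, totalDegree_X_pow] at h1
    omega
  have hcard : Fintype.card (Fin a ⊕ Fin b) = a + b := by simp
  rw [← hcard]
  refine mem_S_of (Sum.elim p (fun j => x0 * r j)) (hp.sum_type hr' hdisj)
    (A + (X (Sum.inl 0) * X (Sum.inr 0)) ^ (N + 1) * B) fun z => ?_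
  rw [Fintype.sum_sum_type, Complex.ofReal_add]
  simp only [Sum.elim_inl, Sum.elim_inr]
  rw [hA z, map_add, map_mul, map_pow, map_mul, eval_X, eval_X, Sum.elim_inl, Sum.elim_inr,
    Complex.mul_conj, Complex.normSq_eq_norm_sq, mul_add]
  congr 1
  rw [mul_left_comm, ← hB z, ← Complex.ofReal_pow, ← Complex.ofReal_mul]
  congr 1
  rw [Finset.mul_sum]
  refine Finset.sum_congr rfl fun j _ => ?_
  simp only [x0, map_mul, map_pow, eval_X, norm_mul, norm_pow]
  ring

theorem mem_S_one (d m : ℕ) : m ∈ S d 1 := by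
  classical
  refine ⟨fun j => monomial (Finsupp.single 0 (d + j)) 1, ?_, ∑ j : Fin m, q 1 ^ (j : ℕ), ?_⟩
  · have := linearIndependent_monomials (n := 1) (ι := Fin m)
      (fun j => Finsupp.single 0 (d + j)) ?_ (fun _ => 1) (fun _ => one_ne_zero)
    · simpa using this
    · intro i j h
      have h2 := Finsupp.single_injective (0 : Fin 1) h
      exact Fin.ext (by omega)
  · intro z
    rw [map_sum]
    simp_rw [map_pow, eval_q_conj]
    rw [Finset.mul_sum, Complex.ofReal_sum]
    refine Finset.sum_congr rfl fun j _ => ?_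
    rw [← pow_add, ← Complex.ofReal_pow]
    congr 1
    simp [eval_monomial, ← pow_mul, mul_comm]

theorem gcd_choose (n : ℕ) : ∀ (g d : ℕ), (∀ D, d ≤ D → g ∣ (n + D).choose D) → g ∣ 1 := by
  induction n with
  | zero =>
    intro g d h
    simpa using h d le_rfl
  | succ n ih =>
    intro g d h
    refine ih g (d + 1) fun D hD => ?_
    obtain ⟨E, rfl⟩ : ∃ E, D = E + 1 := ⟨D - 1, by omega⟩
    have h1 := h E (by omega)
    have h2 := h (E + 1) (by omega)
    have h3 : (n + 1 + (E + 1)).choose (E + 1) =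
        (n + 1 + E).choose E + (n + (E + 1)).choose (E + 1) := by
      have : n + 1 + (E + 1) = (n + 1 + E) + 1 := by ring
      rw [this, Nat.choose_succ_succ, show n + (E + 1) = n + 1 + E by ring]
    rw [h3] at h2
    exact (Nat.dvd_add_right h1).1 h2

/-- `S_d(n)` is a numerical semigroup. -/
theorem cofinite_S (d n : ℕ) : {m | m ∉ S d (n + 1)}.Finite := by
  have hgcd : Nat.setGcd (S d (n + 1)) = 1 := by
    rw [← Nat.dvd_one]
    refine gcd_choose n _ d fun D hD => Nat.setGcd_dvd_of_mem ?_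
    have := choose_mem_S (d := d) (n := n + 1) (D := D) (by omega) hD
    rwa [show n + 1 + D - 1 = n + D by omega] at this
  obtain ⟨N, hN⟩ := Nat.exists_mem_closure_of_ge (S d (n + 1))
  refine (Finset.range N).finite_toSet.subset fun m hm => ?_
  rw [Finset.coe_range, Set.mem_Iio]
  by_contra hge
  apply hm
  have h1 := hN m (by omega) (by rw [hgcd]; exact one_dvd m)
  let T : AddSubmonoid ℕ :=
    { carrier := S d (n + 1)
      zero_mem' := zero_mem_S _ _
      add_mem' := fun ha hb => add_mem_S ha hb }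
  have h2 : AddSubmonoid.closure (S d (n + 1)) ≤ T := AddSubmonoid.closure_le.2 (fun x hx => hx)
  exact h2 h1

/-- The lower bound. -/
theorem le_of_mem_S {d n m : ℕ} (hn : 1 ≤ n) (hm : m ∈ S d n) (hm0 : m ≠ 0) :
    (n + d - 1).choose d ≤ m := by
  classical
  rcases Nat.lt_or_ge n 2 with h | h
  · obtain rfl : n = 1 := by omega
    rw [Nat.add_sub_cancel_left, Nat.choose_self]
    omega
  obtain ⟨n, rfl⟩ : ∃ k, n = k + 1 := ⟨n - 1, by omega⟩
  obtain ⟨p, hp, A, hA⟩ := hm
  have hA0 : A ≠ 0 := by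
    intro h0
    have hj := hp.ne_zero ⟨0, by omega⟩
    apply hj
    refine MvPolynomial.funext fun z => ?_
    have h1 := hA z
    rw [h0, map_zero, mul_zero, Complex.ofReal_eq_zero,
      Finset.sum_eq_zero_iff_of_nonneg (fun _ _ => by positivity)] at h1
    simpa using h1 ⟨0, by omega⟩ (Finset.mem_univ _)
  have hpol := polarized p A hA
  obtain ⟨e, B, hB, hAB⟩ := WfDvdMonoid.max_power_factor hA0 (q_irreducible h)
  rw [hAB, ← mul_assoc, ← pow_add] at hpol
  have h1 := lower_bilinear (by omega) p (fun j => cj (p j)) B hB hpol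
  refine le_trans ?_ h1
  rw [show n + 1 + d - 1 = n + d by omega, ← Nat.choose_symm_add, ← Nat.choose_symm_add]
  exact Nat.choose_le_choose _ (by omega)

end Pool.Agent.Lib_helper26.SOS
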